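import Mathlib

set_option autoImplicit false
open scoped ComplexOrder
open MeasureTheory

namespace Pool.Agent.H21.Wick

/-! ## The Wick formula for the complex Gaussian weight -/

/-- the one-variable integrand -/
noncomputable def mono (a b : ℕ) (z : ℂ) : ℂ := z ^ a * (star z) ^ b * (Real.exp (-‖z‖ ^ 2) : ℝ)

lemma norm_mono (a b : ℕ) (z : ℂ) : ‖mono a b z‖ = ‖z‖ ^ ((a + b : ℕ) : ℝ) * Real.exp (-‖z‖ ^ (2 : ℝ)) := by
  unfold mono
  rw [norm_mul, norm_mul, norm_pow, norm_pow, norm_star, ← pow_add, Real.rpow_natCast,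
    Real.rpow_two]
  rw [Complex.norm_real, Real.norm_of_nonneg (Real.exp_pos _).le]

lemma integrable_mono (a b : ℕ) : Integrable (mono a b) := by
  have h := Complex.integral_rpow_mul_exp_neg_rpow (p := 2) (q := ((a + b : ℕ) : ℝ)) (by norm_num)
    (by have : (0:ℝ) ≤ ((a+b : ℕ) : ℝ) := Nat.cast_nonneg _; linarith)
  have hne : ∫ x : ℂ, ‖x‖ ^ ((a + b : ℕ) : ℝ) * Real.exp (-‖x‖ ^ (2:ℝ)) ≠ 0 := by
    rw [h]
    have : 0 < Real.Gamma ((((a + b : ℕ) : ℝ) + 2) / 2) := by
      apply Real.Gamma_pos_of_pos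
      have : (0:ℝ) ≤ ((a+b : ℕ) : ℝ) := Nat.cast_nonneg _
      linarith
    positivity
  have hint := Integrable.of_integral_ne_zero hne
  refine Integrable.mono' hint ?_ ?_
  · apply Continuous.aestronglyMeasurable
    unfold mono
    fun_prop
  · filter_upwards with z
    rw [norm_mono]

lemma integral_mono_eq (a : ℕ) : ∫ z : ℂ, mono a a z = (Real.pi : ℂ) * (a.factorial : ℂ) := by
  have h := Complex.integral_rpow_mul_exp_neg_rpow (p := 2) (q := ((a + a : ℕ) : ℝ)) (by norm_num)
    (by have : (0:ℝ) ≤ ((a+a : ℕ) : ℝ) := Nat.cast_nonneg _; linarith)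
  have h1 : ∀ z : ℂ, mono a a z = ((‖z‖ ^ ((a + a : ℕ) : ℝ) * Real.exp (-‖z‖ ^ (2:ℝ)) : ℝ) : ℂ) := by
    intro z
    unfold mono
    rw [Real.rpow_natCast, Real.rpow_two]
    push_cast
    rw [← mul_pow]
    have : z * star z = ((‖z‖ : ℂ)) ^ 2 := by
      rw [Complex.star_def, Complex.mul_conj, Complex.normSq_eq_norm_sq]
      push_cast
      ring
    rw [this]
    ring
  simp only [h1]
  rw [integral_complex_ofReal, h]
  have h2 : ((((a + a : ℕ) : ℝ) + 2) / 2) = (a : ℝ) + 1 := by push_cast; ring
  rw [h2, Real.Gamma_nat_eq_factorial]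
  push_cast
  ring

lemma integral_mono_ne (a b : ℕ) (hab : a ≠ b) : ∫ z : ℂ, mono a b z = 0 := by
  -- rotation by c = exp (i pi / (a - b))
  set θ : ℝ := Real.pi / ((a : ℝ) - b) with hθ
  have hne : ((a : ℝ) - b) ≠ 0 := by
    rw [sub_ne_zero]; exact_mod_cast hab
  set c : ℂ := Complex.exp (θ * Complex.I) with hc
  have hcn : ‖c‖ = 1 := Complex.norm_exp_ofReal_mul_I θ
  have hrot : ∫ z : ℂ, mono a b (c * z) = ∫ z : ℂ, mono a b z := by
    have hmp := (rotation (⟨c, by simp [Submonoid.unitSphere, hcn]⟩ : Circle)).measurePreserving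
    have := hmp.integral_comp
      (rotation (⟨c, by simp [Submonoid.unitSphere, hcn]⟩ : Circle)).toHomeomorph.measurableEmbedding
      (mono a b)
    exact this
  have hmul : ∀ z : ℂ, mono a b (c * z) = (c ^ a * (star c) ^ b) * mono a b z := by
    intro z
    unfold mono
    rw [norm_mul, hcn, one_mul, star_mul', mul_pow, mul_pow]
    ring
  have hcc : c ^ a * (star c) ^ b = -1 := by
    have hstar : star c = Complex.exp (-(θ * Complex.I)) := by
      rw [hc, Complex.star_def, ← Complex.exp_conj]
      congr 1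
      simp
    rw [hstar, hc, ← Complex.exp_nat_mul, ← Complex.exp_nat_mul, ← Complex.exp_add]
    have : (a : ℂ) * (θ * Complex.I) + (b : ℂ) * -(θ * Complex.I) = Real.pi * Complex.I := by
      rw [hθ]
      push_cast
      have hne' : ((a : ℂ) - b) ≠ 0 := by exact_mod_cast hne
      field_simp
      ring
    rw [this, Complex.exp_pi_mul_I]
  simp only [hmul, hcc] at hrot
  rw [integral_const_mul] at hrot
  linear_combination (-1 / 2) * hrot

lemma integral_mono_ite (a b : ℕ) :
    ∫ z : ℂ, mono a b z = if a = b then (Real.pi : ℂ) * (a.factorial : ℂ) else 0 := by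
  split_ifs with h
  · subst h; exact integral_mono_eq a
  · exact integral_mono_ne a b h

/-! ### Counting permutations -/

section Count
variable {α K : Type} [Fintype α] [DecidableEq α] [Fintype K] [DecidableEq K]

lemma count_perm (p q : α → K) :
    Fintype.card {σ : Equiv.Perm α // q ∘ σ = p} =
      ∏ v, (if Fintype.card {a // p a = v} = Fintype.card {a // q a = v}
        then (Fintype.card {a // p a = v}).factorial else 0) := by
  by_cases h : ∀ v, Fintype.card {a // p a = v} = Fintype.card {a // q a = v}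
  · have e : ∀ v, {a // p a = v} ≃ {a // q a = v} := fun v => Fintype.equivOfCardEq (h v)
    set σ0 : Equiv.Perm α := Equiv.ofFiberEquiv (f := p) (g := q) e with hσ0
    have h0 : q ∘ σ0 = p := by
      funext a
      exact Equiv.ofFiberEquiv_map e a
    have hcard : Fintype.card {σ : Equiv.Perm α // q ∘ σ = p} =
        Fintype.card {g : Equiv.Perm α // q ∘ g = q} := by
      refine Fintype.card_congr ⟨fun σ => ⟨σ.1 * σ0⁻¹, ?_⟩, fun g => ⟨g.1 * σ0, ?_⟩, ?_, ?_⟩
      · funext a
        have h1 := congrFun σ.2 (σ0⁻¹ a)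
        have h2 := congrFun h0 (σ0⁻¹ a)
        simp only [Function.comp] at h1 h2 ⊢
        rw [Equiv.Perm.mul_apply, h1, ← h2]
        simp
      · funext a
        have h1 := congrFun g.2 (σ0 a)
        have h2 := congrFun h0 a
        simp only [Function.comp] at h1 h2 ⊢
        rw [Equiv.Perm.mul_apply, h1, h2]
      · intro σ; simp
      · intro g; simp
    rw [hcard, DomMulAct.stabilizer_card]
    refine Finset.prod_congr rfl fun v _ => ?_
    rw [if_pos (h v), h v]
  · push Not at h
    obtain ⟨v, hv⟩ := h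
    rw [Finset.prod_eq_zero (Finset.mem_univ v) (by rw [if_neg hv])]
    rw [Fintype.card_eq_zero_iff]
    refine ⟨fun σ => hv ?_⟩
    refine Fintype.card_congr ⟨fun a => ⟨σ.1 a.1, ?_⟩, fun b => ⟨σ.1⁻¹ b.1, ?_⟩, ?_, ?_⟩
    · have := congrFun σ.2 a.1
      simp only [Function.comp] at this
      rw [this, a.2]
    · have := congrFun σ.2 (σ.1⁻¹ b.1)
      simp only [Function.comp] at this
      rw [← this]
      simpa using b.2
    · intro a; simp
    · intro b; simp

end Count

section Multi
variable {α K : Type} [Fintype α] [DecidableEq α] [Fintype K] [DecidableEq K]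

/-- the Gaussian weight -/
noncomputable def wt (z : K → ℂ) : ℂ := ∏ v, ((Real.exp (-‖z v‖ ^ 2) : ℝ) : ℂ)

lemma prod_comp_fiber (p : α → K) (f : K → ℂ) :
    ∏ k, f (p k) = ∏ v, f v ^ (Fintype.card {a // p a = v}) := by
  rw [← Finset.prod_fiberwise Finset.univ p (fun k => f (p k))]
  refine Finset.prod_congr rfl fun v _ => ?_
  rw [Finset.prod_congr rfl (g := fun _ => f v)]
  · rw [Finset.prod_const, Fintype.card_subtype]
  · intro x hx
    rw [(Finset.mem_filter.mp hx).2]

lemma monomial_eq (p q : α → K) (z : K → ℂ) :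
    (∏ k, z (p k)) * (∏ k, star (z (q k))) * wt z =
      ∏ v, mono (Fintype.card {a // p a = v}) (Fintype.card {a // q a = v}) (z v) := by
  rw [prod_comp_fiber p z, prod_comp_fiber q (fun v => star (z v)), wt, ← Finset.prod_mul_distrib,
    ← Finset.prod_mul_distrib]
  rfl

lemma integrable_monomial (p q : α → K) :
    Integrable (fun z : K → ℂ => (∏ k, z (p k)) * (∏ k, star (z (q k))) * wt z) := by
  simp only [monomial_eq]
  exact Integrable.fintype_prod (fun v => integrable_mono _ _)

lemma integral_monomial (p q : α → K) :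
    ∫ z : K → ℂ, (∏ k, z (p k)) * (∏ k, star (z (q k))) * wt z =
      (Real.pi : ℂ) ^ (Fintype.card K) *
        (Fintype.card {σ : Equiv.Perm α // q ∘ σ = p} : ℂ) := by
  simp only [monomial_eq]
  rw [integral_fintype_prod_volume_eq_prod
    (f := fun v z => mono (Fintype.card {a // p a = v}) (Fintype.card {a // q a = v}) z)]
  simp only [integral_mono_ite]
  rw [count_perm]
  push_cast
  rw [← Finset.card_univ, ← Finset.prod_const, ← Finset.prod_mul_distrib]
  refine Finset.prod_congr rfl fun v _ => ?_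
  split_ifs <;> simp

/-- **Wick formula** -/
theorem wick (a b : α → K → ℂ) :
    Integrable (fun z : K → ℂ => (∏ k, ∑ v, a k v * z v) * (∏ k, ∑ v, b k v * star (z v)) * wt z) ∧
    ∫ z : K → ℂ, (∏ k, ∑ v, a k v * z v) * (∏ k, ∑ v, b k v * star (z v)) * wt z =
      (Real.pi : ℂ) ^ (Fintype.card K) *
        ∑ σ : Equiv.Perm α, ∏ k, ∑ v, a k v * b (σ k) v := by
  have hexp : ∀ z : K → ℂ,
      (∏ k, ∑ v, a k v * z v) * (∏ k, ∑ v, b k v * star (z v)) * wt z =
      ∑ p : α → K, ∑ q : α → K, ((∏ k, a k (p k)) * (∏ k, b k (q k))) *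
        ((∏ k, z (p k)) * (∏ k, star (z (q k))) * wt z) := by
    intro z
    rw [Finset.prod_univ_sum, Finset.prod_univ_sum, Fintype.piFinset_univ, Finset.sum_mul_sum,
      Finset.sum_mul]
    refine Finset.sum_congr rfl fun p _ => ?_
    rw [Finset.sum_mul]
    refine Finset.sum_congr rfl fun q _ => ?_
    rw [Finset.prod_mul_distrib, Finset.prod_mul_distrib]
    ring
  constructor
  · simp only [hexp]
    refine integrable_finsetSum _ fun p _ => integrable_finsetSum _ fun q _ => ?_
    exact (integrable_monomial p q).const_mul _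
  · simp only [hexp]
    rw [integral_finsetSum _ (fun p _ => integrable_finsetSum _ fun q _ =>
      (integrable_monomial p q).const_mul _)]
    have h1 : ∀ p : α → K, ∫ z : K → ℂ, ∑ q : α → K, ((∏ k, a k (p k)) * (∏ k, b k (q k))) *
        ((∏ k, z (p k)) * (∏ k, star (z (q k))) * wt z) =
        (Real.pi : ℂ) ^ (Fintype.card K) * ∑ q : α → K, ((∏ k, a k (p k)) * (∏ k, b k (q k))) *
          (Fintype.card {σ : Equiv.Perm α // q ∘ σ = p} : ℂ) := by
      intro p
      rw [integral_finsetSum _ (fun q _ => (integrable_monomial p q).const_mul _), Finset.mul_sum]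
      refine Finset.sum_congr rfl fun q _ => ?_
      rw [integral_const_mul, integral_monomial]
      ring
    simp only [h1]
    rw [← Finset.mul_sum]
    congr 1
    -- right-hand side expansion
    have h2 : ∀ σ : Equiv.Perm α, ∏ k, ∑ v, a k v * b (σ k) v =
        ∑ p : α → K, (∏ k, a k (p k)) * ∏ k, b k (p (σ⁻¹ k)) := by
      intro σ
      rw [Finset.prod_univ_sum, Fintype.piFinset_univ]
      refine Finset.sum_congr rfl fun p _ => ?_
      rw [Finset.prod_mul_distrib]
      congr 1
      rw [← Equiv.prod_comp σ (fun k => b k (p (σ⁻¹ k)))]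
      simp
    simp only [h2]
    conv_rhs => rw [Finset.sum_comm]
    refine Finset.sum_congr rfl fun p _ => ?_
    have h3 : ∀ q : α → K, (Fintype.card {σ : Equiv.Perm α // q ∘ σ = p} : ℂ) =
        ∑ σ : Equiv.Perm α, (if q ∘ σ = p then (1 : ℂ) else 0) := by
      intro q
      rw [Fintype.card_subtype, Finset.sum_ite, Finset.sum_const_zero, add_zero, Finset.sum_const,
        nsmul_eq_mul, mul_one]
    simp only [h3, Finset.mul_sum]
    conv_lhs => rw [Finset.sum_comm]
    refine Finset.sum_congr rfl fun σ _ => ?_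
    rw [Finset.sum_eq_single (p ∘ (σ⁻¹ : Equiv.Perm α))]
    · rw [if_pos]
      · simp
      · funext x; simp
    · intro q _ hq
      rw [if_neg, mul_zero]
      intro h
      apply hq
      rw [← h]
      funext x; simp
    · intro h; exact absurd (Finset.mem_univ _) h

end Multi

end Pool.Agent.H21.Wick
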