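import Mathlib
import Pool.Agent.H21.Wick

set_option autoImplicit false
open scoped ComplexOrder
open MeasureTheory Matrix

namespace Pool.Agent.H21.DetWick

open Pool.Agent.H21.Wick

variable {α K : Type} [Fintype α] [DecidableEq α] [Fintype K] [DecidableEq K]

/-! ## Gaussian average of a determinant with holomorphic / antiholomorphic columns -/

/-- the matrix whose `inl` columns are linear in `z` and whose `inr` columns are linear in `star z` -/
noncomputable def NN (A A' : K → (α ⊕ α) → α → ℂ) (z : K → ℂ) : Matrix (α ⊕ α) (α ⊕ α) ℂ :=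
  Matrix.of fun x y => Sum.elim (fun k => ∑ v, A v x k * z v) (fun l => ∑ v, A' v x l * star (z v)) y

lemma det_NN (A A' : K → (α ⊕ α) → α → ℂ) (z : K → ℂ) :
    (NN A A' z).det * wt z = ∑ τ : Equiv.Perm (α ⊕ α), ((Equiv.Perm.sign τ : ℤ) : ℂ) *
      ((∏ k, ∑ v, A v (τ (Sum.inl k)) k * z v) * (∏ k, ∑ v, A' v (τ (Sum.inr k)) k * star (z v))
        * wt z) := by
  rw [Matrix.det_apply', Finset.sum_mul]
  refine Finset.sum_congr rfl fun τ _ => ?_
  rw [Fintype.prod_sum_type]
  simp only [NN, Matrix.of_apply, Sum.elim_inl, Sum.elim_inr]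
  ring

theorem det_wick (A A' : K → (α ⊕ α) → α → ℂ) :
    Integrable (fun z : K → ℂ => (NN A A' z).det * wt z) ∧
    ∫ z : K → ℂ, (NN A A' z).det * wt z = (Real.pi : ℂ) ^ (Fintype.card K) *
      ∑ τ : Equiv.Perm (α ⊕ α), ((Equiv.Perm.sign τ : ℤ) : ℂ) * ∑ σ : Equiv.Perm α,
        ∏ k, ∑ v, A v (τ (Sum.inl k)) k * A' v (τ (Sum.inr (σ k))) (σ k) := by
  have hw := fun τ : Equiv.Perm (α ⊕ α) =>
    wick (fun k v => A v (τ (Sum.inl k)) k) (fun k v => A' v (τ (Sum.inr k)) k)
  constructor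
  · simp only [det_NN]
    exact integrable_finsetSum _ fun τ _ => ((hw τ).1).const_mul _
  · simp only [det_NN]
    rw [integral_finsetSum _ fun τ _ => ((hw τ).1).const_mul _, Finset.mul_sum]
    refine Finset.sum_congr rfl fun τ _ => ?_
    rw [integral_const_mul, (hw τ).2]
    ring

/-! ## Antisymmetrised products -/

/-- antisymmetrised product of bilinear forms on `α ⊕ α` -/
def AA (G : α → (α ⊕ α) → (α ⊕ α) → ℂ) : ℂ :=
  ∑ τ : Equiv.Perm (α ⊕ α), ((Equiv.Perm.sign τ : ℤ) : ℂ) *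
    ∏ k, G k (τ (Sum.inl k)) (τ (Sum.inr k))

lemma AA_symm (G : α → (α ⊕ α) → (α ⊕ α) → ℂ) (k₀ : α) (h : ∀ x y, G k₀ x y = G k₀ y x) :
    AA G = 0 := by
  have h1 : AA G = - AA G := by
    conv_lhs => rw [AA]
    rw [← Equiv.sum_comp (Equiv.mulRight (Equiv.swap (Sum.inl k₀ : α ⊕ α) (Sum.inr k₀)))]
    rw [AA, ← Finset.sum_neg_distrib]
    refine Finset.sum_congr rfl fun τ _ => ?_
    rw [Equiv.coe_mulRight, Equiv.Perm.sign_mul, Equiv.Perm.sign_swap (by simp)]
    have h2 : ∏ k, G k ((τ * Equiv.swap (Sum.inl k₀ : α ⊕ α) (Sum.inr k₀)) (Sum.inl k))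
        ((τ * Equiv.swap (Sum.inl k₀ : α ⊕ α) (Sum.inr k₀)) (Sum.inr k)) =
        ∏ k, G k (τ (Sum.inl k)) (τ (Sum.inr k)) := by
      refine Finset.prod_congr rfl fun k _ => ?_
      by_cases hk : k = k₀
      · subst hk
        simp only [Equiv.Perm.mul_apply, Equiv.swap_apply_left, Equiv.swap_apply_right]
        exact h _ _
      · simp only [Equiv.Perm.mul_apply]
        rw [Equiv.swap_apply_of_ne_of_ne (by simpa using hk) (by simp),
          Equiv.swap_apply_of_ne_of_ne (by simp) (by simpa using hk)]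
    rw [h2]
    push_cast
    ring
  have h2 : (2 : ℂ) * AA G = 0 := by linear_combination h1
  simpa using h2

lemma AA_congr_symm (G G' : α → (α ⊕ α) → (α ⊕ α) → ℂ)
    (h : ∀ k x y, G' k x y - G k x y = G' k y x - G k y x) : AA G' = AA G := by
  have key : ∀ S : Finset α, AA (fun k => if k ∈ S then G' k else G k) = AA G := by
    intro S
    induction S using Finset.induction_on with
    | empty => simp
    | insert k₀ S hk₀ ih =>
      rw [← ih, ← sub_eq_zero]
      rw [← AA_symm (fun k => if k = k₀ then (fun x y => G' k x y - G k x y) else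
        (if k ∈ S then G' k else G k)) k₀ (by
          intro x y
          simp only [if_true]
          exact h k₀ x y)]
      rw [AA, AA, AA, ← Finset.sum_sub_distrib]
      refine Finset.sum_congr rfl fun τ _ => ?_
      rw [← mul_sub]
      congr 1
      rw [← Finset.mul_prod_erase Finset.univ _ (Finset.mem_univ k₀),
        ← Finset.mul_prod_erase Finset.univ _ (Finset.mem_univ k₀),
        ← Finset.mul_prod_erase Finset.univ _ (Finset.mem_univ k₀)]
      have e1 : ∏ k ∈ Finset.univ.erase k₀, (if k ∈ insert k₀ S then G' k else G k)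
          (τ (Sum.inl k)) (τ (Sum.inr k)) = ∏ k ∈ Finset.univ.erase k₀,
          (if k ∈ S then G' k else G k) (τ (Sum.inl k)) (τ (Sum.inr k)) := by
        refine Finset.prod_congr rfl fun k hk => ?_
        have : k ≠ k₀ := Finset.ne_of_mem_erase hk
        simp [this]
      have e2 : ∏ k ∈ Finset.univ.erase k₀, (if k = k₀ then (fun x y => G' k x y - G k x y) else
          (if k ∈ S then G' k else G k)) (τ (Sum.inl k)) (τ (Sum.inr k)) =
          ∏ k ∈ Finset.univ.erase k₀,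
          (if k ∈ S then G' k else G k) (τ (Sum.inl k)) (τ (Sum.inr k)) := by
        refine Finset.prod_congr rfl fun k hk => ?_
        have : k ≠ k₀ := Finset.ne_of_mem_erase hk
        simp [this]
      rw [e1, e2]
      simp only [Finset.mem_insert_self, if_true, hk₀, if_false]
      ring
  have := key Finset.univ
  simpa using this

/-- If `G k` is supported on `(inl, inr)` then only block permutations contribute. -/
lemma AA_block (B : α → α → α → ℂ) :
    AA (fun k x y => Sum.elim (fun a => Sum.elim (fun _ => 0) (fun b => B k a b) y) (fun _ => 0) x) =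
      ∑ ρ : Equiv.Perm α, ∑ κ : Equiv.Perm α,
        ((Equiv.Perm.sign ρ : ℤ) : ℂ) * ((Equiv.Perm.sign κ : ℤ) : ℂ) * ∏ k, B k (ρ k) (κ k) := by
  classical
  rw [AA]
  rw [← Finset.sum_product']
  symm
  refine Finset.sum_of_injOn (fun p => Equiv.Perm.sumCongr p.1 p.2) ?_ ?_ ?_ ?_
  · rintro ⟨σ₁, τ₁⟩ _ ⟨σ₂, τ₂⟩ _ h
    have h2 : ∀ x, Equiv.Perm.sumCongr σ₁ τ₁ x = Equiv.Perm.sumCongr σ₂ τ₂ x :=
      fun x => DFunLike.congr_fun h x
    simp only [Sum.map_inr, Sum.map_inl, Equiv.Perm.sumCongr_apply, Sum.forall, Sum.inl.injEq,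
      Sum.inr.injEq] at h2
    ext x
    · exact h2.left x
    · exact h2.right x
  · intro x _
    simp
  · intro τ _ hτ
    have h1 : ¬∀ x : α, ∃ y : α, Sum.inl y = τ (Sum.inl x) := by
      intro hall
      apply hτ
      have hm : τ ∈ (Equiv.Perm.sumCongrHom α α).range := by
        apply Equiv.Perm.mem_sumCongrHom_range_of_perm_mapsTo_inl
        rintro _ ⟨a, rfl⟩
        obtain ⟨y, hy⟩ := hall a
        exact ⟨y, hy⟩
      obtain ⟨p, hp⟩ := hm
      exact ⟨p, by simp, hp⟩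
    obtain ⟨a, ha⟩ := not_forall.mp h1
    rcases hx : τ (Sum.inl a) with a2 | b
    · exact absurd hx.symm ((not_exists.mp ha) a2)
    · rw [Finset.prod_eq_zero (Finset.mem_univ a), mul_zero]
      rw [hx]
      simp
  · rintro ⟨σ₁, τ₁⟩ _
    simp only [Equiv.Perm.sumCongr_apply, Sum.map_inl, Sum.map_inr, Sum.elim_inl, Sum.elim_inr]
    rw [Equiv.Perm.sign_sumCongr]
    push_cast
    ring

/-- **Main identity.** -/
theorem det_wick_block (A A' : K → (α ⊕ α) → α → ℂ) (B : α → α → α → α → ℂ)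
    (h11 : ∀ k l a b, ∑ v, A v (Sum.inl a) k * A' v (Sum.inl b) l = 0)
    (h22 : ∀ k l a b, ∑ v, A v (Sum.inr a) k * A' v (Sum.inr b) l = 0)
    (h12 : ∀ k l a b, (∑ v, A v (Sum.inl a) k * A' v (Sum.inr b) l) -
      (∑ v, A v (Sum.inr b) k * A' v (Sum.inl a) l) = B k l a b) :
    ∫ z : K → ℂ, (NN A A' z).det * wt z = (Real.pi : ℂ) ^ (Fintype.card K) *
      ∑ σ : Equiv.Perm α, ((Equiv.Perm.sign σ : ℤ) : ℂ) *
      ∑ ρ : Equiv.Perm α, ∑ κ : Equiv.Perm α,
        ((Equiv.Perm.sign ρ : ℤ) : ℂ) * ((Equiv.Perm.sign κ : ℤ) : ℂ) *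
          ∏ k, B k (σ k) (ρ k) (κ k) := by
  rw [(det_wick A A').2]
  congr 1
  simp only [Finset.mul_sum]
  rw [Finset.sum_comm]
  refine Finset.sum_congr rfl fun σ _ => ?_
  rw [← Equiv.sum_comp (Equiv.mulRight (Equiv.Perm.sumCongr (1 : Equiv.Perm α) σ⁻¹))]
  have h1 : ∀ τ : Equiv.Perm (α ⊕ α),
      ((Equiv.Perm.sign ((Equiv.mulRight (Equiv.Perm.sumCongr (1 : Equiv.Perm α) σ⁻¹)) τ) : ℤ) : ℂ) *
      ∏ k, ∑ v, A v (((Equiv.mulRight (Equiv.Perm.sumCongr (1 : Equiv.Perm α) σ⁻¹)) τ)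
        (Sum.inl k)) k *
        A' v (((Equiv.mulRight (Equiv.Perm.sumCongr (1 : Equiv.Perm α) σ⁻¹)) τ)
          (Sum.inr (σ k))) (σ k) =
      ((Equiv.Perm.sign σ : ℤ) : ℂ) * (((Equiv.Perm.sign τ : ℤ) : ℂ) *
        ∏ k, ∑ v, A v (τ (Sum.inl k)) k * A' v (τ (Sum.inr k)) (σ k)) := by
    intro τ
    simp only [Equiv.coe_mulRight, Equiv.Perm.mul_apply, Equiv.Perm.sumCongr_apply, Sum.map_inl,
      Sum.map_inr, Equiv.Perm.one_apply, Equiv.Perm.sign_mul,
      Equiv.Perm.sign_sumCongr, Equiv.Perm.sign_one, Equiv.Perm.sign_inv, one_mul]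
    have h0 : ∀ k, σ⁻¹ (σ k) = k := fun k => by simp
    simp only [h0]
    push_cast
    ring
  rw [Finset.sum_congr rfl fun τ _ => h1 τ, ← Finset.mul_sum]
  simp only [← Finset.mul_sum]
  congr 1
  have h2 := AA_congr_symm (fun k x y => ∑ v, A v x k * A' v y (σ k))
    (fun k x y => Sum.elim (fun a => Sum.elim (fun _ => 0) (fun b => B k (σ k) a b) y)
      (fun _ => 0) x) (by
      intro k x y
      rcases x with a | a <;> rcases y with b | b
      · simp [h11]
      · simp only [Sum.elim_inl, Sum.elim_inr, ← h12]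
        ring
      · simp only [Sum.elim_inl, Sum.elim_inr, ← h12]
        ring
      · simp [h22])
  rw [AA_block] at h2
  rw [h2, AA]

end Pool.Agent.H21.DetWick
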