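import Mathlib

set_option autoImplicit false
open scoped ComplexOrder
open Matrix

namespace Pool.Agent.H21.QuatDet

/-! ## Determinants of quaternionic-linear maps are nonnegative -/

theorem det_nonneg_aux (n : ℕ) : ∀ (V : Type) [AddCommGroup V] [Module ℂ V] [FiniteDimensional ℂ V]
    (_ : Module.finrank ℂ V = n) (j : V →ₛₗ[starRingEnd ℂ] V) (_ : ∀ v, j (j v) = -v)
    (f : V →ₗ[ℂ] V) (_ : ∀ v, f (j v) = j (f v)), 0 ≤ LinearMap.det f := by
  induction n using Nat.strong_induction_on with
  | _ n ih =>
    intro V _ _ _ hn j hj f hf
    rcases Nat.eq_zero_or_pos n with h0 | hpos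
    · rw [LinearMap.det_eq_one_of_finrank_eq_zero (by rw [hn, h0])]
      exact zero_le_one
    · have hnt : Nontrivial V := by
        apply Module.nontrivial_of_finrank_pos (R := ℂ)
        omega
      obtain ⟨μ, hμ⟩ := Module.End.exists_eigenvalue f
      obtain ⟨v, hv⟩ := hμ.exists_hasEigenvector
      have hv0 : v ≠ 0 := hv.2
      have hfv : f v = μ • v := hv.apply_eq_smul
      have hfw : f (j v) = (starRingEnd ℂ μ) • j v := by
        rw [hf, hfv, map_smulₛₗ]
      have hli : LinearIndependent ℂ ![v, j v] := by
        rw [LinearIndependent.pair_iff]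
        intro s t hst
        by_cases ht : t = 0
        · subst ht
          simp only [zero_smul, add_zero, smul_eq_zero] at hst
          exact ⟨hst.resolve_right hv0, rfl⟩
        · exfalso
          have h1 : j v = (-s / t) • v := by
            have : t • j v = -(s • v) := by
              rw [eq_neg_iff_add_eq_zero, add_comm]; exact hst
            calc j v = (1 / t) • (t • j v) := by rw [smul_smul]; field_simp; simp
              _ = _ := by rw [this, ← neg_smul, smul_smul]; congr 1; ring
          set c := -s / t
          have h2 := hj v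
          rw [h1, map_smulₛₗ, h1, smul_smul] at h2
          have h3 : ((starRingEnd ℂ) c * c + 1) • v = 0 := by
            rw [add_smul, one_smul, h2]; simp
          have h4 := (smul_eq_zero.mp h3).resolve_right hv0
          rw [mul_comm, Complex.mul_conj] at h4
          have h5 : (Complex.normSq c + 1 : ℝ) = 0 := by exact_mod_cast h4
          have := Complex.normSq_nonneg c
          linarith
      set W : Submodule ℂ V := Submodule.span ℂ (Set.range ![v, j v]) with hW
      have hvW : v ∈ W := Submodule.subset_span ⟨0, rfl⟩
      have hwW : j v ∈ W := Submodule.subset_span ⟨1, rfl⟩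
      have hfW : W ≤ W.comap f := by
        rw [hW, Submodule.span_le]
        rintro _ ⟨i, rfl⟩
        fin_cases i
        · change f v ∈ W
          rw [hfv]; exact W.smul_mem _ hvW
        · change f (j v) ∈ W
          rw [hfw]; exact W.smul_mem _ hwW
      have hjW : W ≤ W.comap j := by
        rw [hW, Submodule.span_le]
        rintro _ ⟨i, rfl⟩
        fin_cases i
        · change j v ∈ W
          exact hwW
        · change j (j v) ∈ W
          rw [hj]; exact W.neg_mem hvW
      rw [LinearMap.det_eq_det_mul_det W f hfW]
      apply mul_nonneg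
      · -- the determinant on W
        let b : Module.Basis (Fin 2) ℂ W := Module.Basis.span hli
        have hb0 : (b 0 : V) = v := congrArg Subtype.val (Module.Basis.span_apply hli 0)
        have hb1 : (b 1 : V) = j v := congrArg Subtype.val (Module.Basis.span_apply hli 1)
        have hmat : LinearMap.toMatrix b b (f.restrict hfW) = !![μ, 0; 0, starRingEnd ℂ μ] := by
          have e0 : (f.restrict hfW) (b 0) = μ • b 0 := by
            apply Subtype.ext
            rw [LinearMap.coe_restrict_apply, hb0, hfv]
            simp [hb0]
          have e1 : (f.restrict hfW) (b 1) = (starRingEnd ℂ μ) • b 1 := by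
            apply Subtype.ext
            rw [LinearMap.coe_restrict_apply, hb1, hfw]
            simp [hb1]
          ext i k
          rw [LinearMap.toMatrix_apply]
          fin_cases k
          · change b.repr ((f.restrict hfW) (b 0)) i = _
            rw [e0]
            fin_cases i <;> simp
          · change b.repr ((f.restrict hfW) (b 1)) i = _
            rw [e1]
            fin_cases i <;> simp
        rw [← LinearMap.det_toMatrix b, hmat, Matrix.det_fin_two_of]
        rw [mul_zero, sub_zero, Complex.mul_conj]
        exact_mod_cast Complex.normSq_nonneg μ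
      · -- the quotient
        refine ih (Module.finrank ℂ (V ⧸ W)) ?_ (V ⧸ W) rfl (W.mapQ W j hjW) ?_ (W.mapQ W f hfW) ?_
        · have hW2 : Module.finrank ℂ W = 2 := by
            rw [hW, finrank_span_eq_card hli]; simp
          have := Submodule.finrank_quotient_add_finrank W
          omega
        · intro x
          obtain ⟨x, rfl⟩ := Submodule.Quotient.mk_surjective W x
          rw [Submodule.mapQ_apply, Submodule.mapQ_apply, hj]
          rfl
        · intro x
          obtain ⟨x, rfl⟩ := Submodule.Quotient.mk_surjective W x
          rw [Submodule.mapQ_apply, Submodule.mapQ_apply, Submodule.mapQ_apply,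
            Submodule.mapQ_apply, hf]

variable {n : Type}

/-- the quaternionic structure on `ℂⁿ ⊕ ℂⁿ` -/
def jmap (n : Type) : (n ⊕ n → ℂ) →ₛₗ[starRingEnd ℂ] (n ⊕ n → ℂ) where
  toFun x := Sum.elim (fun a => -star (x (Sum.inr a))) (fun a => star (x (Sum.inl a)))
  map_add' x y := by
    ext a
    rcases a with a | a <;> simp [add_comm]
  map_smul' c x := by
    ext a
    rcases a with a | a <;> simp

lemma jmap_jmap (x : n ⊕ n → ℂ) : jmap n (jmap n x) = -x := by
  ext a
  rcases a with a | a <;> simp [jmap]

lemma commute_jmap [Fintype n] (X Y : Matrix n n ℂ) (x : n ⊕ n → ℂ) :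
    (fromBlocks X (-(Y.map star)) Y (X.map star)) *ᵥ (jmap n x) =
      jmap n ((fromBlocks X (-(Y.map star)) Y (X.map star)) *ᵥ x) := by
  ext a
  rcases a with a | a
  · simp only [mulVec, dotProduct, Fintype.sum_sum_type, fromBlocks_apply₁₁, fromBlocks_apply₁₂,
      fromBlocks_apply₂₁, fromBlocks_apply₂₂, jmap, LinearMap.coe_mk, AddHom.coe_mk, Sum.elim_inl,
      Sum.elim_inr, Matrix.neg_apply, Matrix.map_apply, star_add, star_sum, star_mul', star_star,
      Finset.sum_neg_distrib, mul_neg, neg_mul, neg_add, neg_neg]
    ring
  · simp only [mulVec, dotProduct, Fintype.sum_sum_type, fromBlocks_apply₁₁, fromBlocks_apply₁₂,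
      fromBlocks_apply₂₁, fromBlocks_apply₂₂, jmap, LinearMap.coe_mk, AddHom.coe_mk, Sum.elim_inl,
      Sum.elim_inr, Matrix.neg_apply, Matrix.map_apply, star_add, star_sum, star_mul', star_star,
      Finset.sum_neg_distrib, mul_neg, neg_mul, neg_add, neg_neg, star_neg]
    ring

theorem det_quat_nonneg [Fintype n] [DecidableEq n] (X Y : Matrix n n ℂ) :
    0 ≤ (fromBlocks X (-(Y.map star)) Y (X.map star)).det := by
  rw [← LinearMap.det_toLin']
  refine det_nonneg_aux _ (n ⊕ n → ℂ) rfl (jmap n) (jmap_jmap) _ ?_
  intro v
  rw [Matrix.toLin'_apply, Matrix.toLin'_apply]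
  exact commute_jmap X Y v

end Pool.Agent.H21.QuatDet
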